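import Pool.Agent.EGF.Stmts

/-!
# Row MAJ of squad EGF.
-/

set_option autoImplicit false

open Finset

namespace Pool.Agent.EGF.H85

theorem maj_ (hMin : MinStmt) : MajStmt := by
  intro V _ k c W s L hsym hflat hL hs hW
  have hsR : (33 : ℝ) ≤ s := by linarith
  have hs2 : 2 ≤ s := by
    have h : (2 : ℝ) ≤ s := by linarith
    exact_mod_cast h
  have hs0 : (0 : ℝ) < s := by linarith
  set t : ℝ := 1 / (s : ℝ) ^ 2 with ht
  have ht0 : 0 ≤ t := by positivity
  have hst : (s : ℝ) ^ 2 * t ≤ 1 := by
    rw [ht, mul_one_div, div_self (by positivity)]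
  have hm := hMin V k c W s (L * s) t hsym hflat hs2 ht0 hst
  set N : ℝ := (W.card : ℝ) with hN
  have hN8 : (8 : ℝ) ≤ N := by
    rw [hN]
    exact_mod_cast hW
  set m : ℝ := ((mins c W t).card : ℝ) with hmd
  have hm0 : 0 ≤ m := by positivity
  have hm1 : m * (s - 1) ≤ 4 * L * N ^ 2 := by
    have h1 : s * (m * (s - 1)) ≤ s * (4 * L * N ^ 2) := by
      calc (s : ℝ) * (m * (s - 1)) = m * (s * (s - 1)) := by ring
        _ ≤ 4 * (L * s) * N ^ 2 := hm
        _ = s * (4 * L * N ^ 2) := by ring
    exact le_of_mul_le_mul_left h1 hs0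
  have hm2 : 8 * m ≤ N ^ 2 := by
    have h1 : m * (32 * L) ≤ m * (s - 1) := mul_le_mul_of_nonneg_left (by linarith) hm0
    have h2 : (4 * L) * (8 * m) ≤ (4 * L) * N ^ 2 := by linarith
    exact le_of_mul_le_mul_left h2 (by linarith)
  set M := maj c W t with hM
  have hsub : W.offDiag ⊆ (M ×ˢ W ∪ W ×ˢ M) ∪ mins c W t := by
    rintro ⟨x, y⟩ hxy
    rw [mem_offDiag] at hxy
    obtain ⟨hx, hy, hne⟩ := hxy
    simp only at hx hy hne
    by_cases h1 : t * W.card ≤ ((nb c W (c x y) x).card : ℝ)
    · apply mem_union_left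
      apply mem_union_left
      rw [mem_product]
      refine ⟨?_, hy⟩
      simp only [hM, maj, mem_filter]
      exact ⟨hx, _, h1⟩
    · by_cases h2 : t * W.card ≤ ((nb c W (c x y) y).card : ℝ)
      · apply mem_union_left
        apply mem_union_right
        rw [mem_product]
        refine ⟨hx, ?_⟩
        simp only [hM, maj, mem_filter]
        exact ⟨hy, _, h2⟩
      · apply mem_union_right
        simp only [mins, mem_filter, mem_product]
        exact ⟨⟨hx, hy⟩, hne, not_le.mp h1, not_le.mp h2⟩
  have hcard := card_le_card hsub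
  have hcard2 : W.card * W.card - W.card ≤ (M.card * W.card + W.card * M.card) +
      (mins c W t).card := by
    rw [← offDiag_card]
    refine hcard.trans ((card_union_le _ _).trans ?_)
    apply Nat.add_le_add_right
    refine (card_union_le _ _).trans ?_
    rw [card_product, card_product]
  have hcard3 : N * N - N ≤ (M.card * N + N * M.card) + m := by
    have h1 : W.card * W.card ≤ W.card + ((M.card * W.card + W.card * M.card) +
      (mins c W t).card) := by omega
    have h2 : (W.card : ℝ) * W.card ≤ W.card + ((M.card * W.card + W.card * M.card) +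
      (mins c W t).card) := by exact_mod_cast h1
    linarith
  have hM0 : (0 : ℝ) ≤ M.card := by positivity
  have h3 : N * (6 * N) ≤ N * (16 * M.card) := by nlinarith
  have h4 : 6 * N ≤ 16 * M.card := le_of_mul_le_mul_left h3 (by linarith)
  linarith

end Pool.Agent.EGF.H85
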